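import Pool.Agent.H93.CT.Stmts

/-!
Module RST of project CT: restrictions of conditions to subsystems.
-/

set_option linter.unusedVariables false
set_option synthInstance.maxSize 100000

namespace SW

section
variable {M : Type} [SetStr M] [ZF M]

theorem rst_et {w Z I J a p : M} (hb : Bs w Z) (hS : Shp w Z I a p) (K b x : M) :
    Et (rj w Z J p) K b x ↔ Et p K b x ∧ (K = emp ∨ E K J) := by
  unfold Et rj
  rw [mem_inter, mem_prod, mem_prod, mem_ins]
  constructor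
  · rintro ⟨h1, h2, h3⟩
    exact ⟨h1, h2.symm⟩
  · rintro ⟨h1, h2⟩
    refine ⟨h1, h2.symm, ?_⟩
    obtain ⟨K', b', x', _, h3, h4, h5⟩ := hS.2.2.1 _ h1
    rw [opair_inj, opair_inj] at h5
    obtain ⟨rfl, rfl, rfl⟩ := h5
    refine ⟨?_, h4⟩
    rcases hS.1 with h | h
    · exact hb.w1.1.sub_of_mem h b h3
    · rw [h] at h3
      exact absurd h3 (not_mem_emp _)

end

/-- RST -/
theorem ct_rst (hcb : CBTStmt) : RSTStmt := by
  intro M _ _ w Z I J a p hb heI hJI hJ hp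
  obtain ⟨hS, hT, hK⟩ := hp
  have et := rst_et (J := J) hb hS
  have etE : ∀ b x, Et (rj w Z J p) emp b x ↔ Et p emp b x := fun b x => by
    rw [et]
    exact ⟨fun h => h.1, fun h => ⟨h, Or.inl rfl⟩⟩
  have etJ : ∀ K, E K J → ∀ b x, Et (rj w Z J p) K b x ↔ Et p K b x := fun K hKJ b x => by
    rw [et]
    exact ⟨fun h => h.1, fun h => ⟨h, Or.inr hKJ⟩⟩
  have lv : ∀ b v, Lv (rj w Z J p) b v ↔ Lv p b v := fun b v => by
    unfold Lv
    simp only [etE]
  have inb : ∀ K, E K J → ∀ b v F, InB (rj w Z J p) K b v F ↔ InB p K b v F :=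
    fun K hKJ b v F => by
      unfold InB
      simp only [etJ K hKJ]
  have act : ∀ K, E K J → ∀ b, Act (rj w Z J p) K b ↔ Act p K b := fun K hKJ b => by
    unfold Act
    simp only [inb K hKJ]
  have hsub : Sub (rj w Z J p) p := fun z hz => by
    unfold rj at hz
    rw [mem_inter] at hz
    exact hz.1
  refine ⟨⟨?_, ?_, ?_⟩, lv⟩
  · refine ⟨hS.1, (hcb M).sub hS.2.1 hsub, ?_, ?_, ?_, ?_, ?_⟩
    · intro z hz
      obtain ⟨K, b, x, _, h2, h3, rfl⟩ := hS.2.2.1 z (hsub z hz)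
      exact ⟨K, b, x, ((et K b x).1 hz).2, h2, h3, rfl⟩
    · intro K b x x' h1 h2
      exact hS.2.2.2.1 K b x x' ((et K b x).1 h1).1 ((et K b x').1 h2).1
    · rintro K b ⟨b', x', h⟩ hba
      rw [et] at h
      obtain ⟨x, hx⟩ := hS.2.2.2.2.1 K b ⟨b', x', h.1⟩ hba
      exact ⟨x, (et K b x).2 ⟨hx, h.2⟩⟩
    · intro b hba
      obtain ⟨x, hx⟩ := hS.2.2.2.2.2.1 b hba
      exact ⟨x, (etE b x).2 hx⟩
    · intro b x h
      exact hS.2.2.2.2.2.2 b x ((etE b x).1 h)
  · refine ⟨?_, ?_, ?_, ?_⟩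
    · intro b v h
      exact hT.1 b v ((lv b v).1 h)
    · intro x h
      exact (lv _ _).2 (hT.2.1 x ((etE _ _).1 h))
    · intro b v c h hc
      exact (lv _ _).2 (hT.2.2.1 b v c ((lv _ _).1 h) hc)
    · intro c v b x F h hc hx h1 h2 h3
      obtain ⟨v', hv', h4, h5⟩ := hT.2.2.2 c v b x F ((lv _ _).1 h) hc ((etE _ _).1 hx) h1 h2 h3
      exact ⟨v', (lv _ _).2 hv', h4, h5⟩
  · intro K hKJ
    obtain ⟨k1, k2, k3, k4, k5, k6, k7, k8⟩ := hK K (hJI K hKJ)
    have et' := etJ K hKJ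
    have inb' := inb K hKJ
    have act' := act K hKJ
    refine ⟨?_, ?_, ?_, ?_, ?_, ?_, ?_, ?_⟩
    · intro b x h
      exact k1 b x ((et' _ _).1 h)
    · intro x h
      exact k2 x ((et' _ _).1 h)
    · intro b v F h
      rw [inb'] at h
      rw [lv]
      exact k3 b v F h
    · intro b v F F' h h'
      rw [inb'] at h h'
      exact k4 b v F F' h h'
    · intro c b v F e hc h h' he
      rw [inb'] at h
      rw [act'] at h'
      obtain ⟨v', F', h1, h2⟩ := k5 c b v F e hc h h' he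
      exact ⟨v', F', (inb' _ _ _).2 h1, h2⟩
    · intro c b v F hc h h'
      rw [inb'] at h
      rw [act'] at h'
      obtain ⟨F', h1⟩ := k6 c b v F hc h h'
      exact ⟨F', (inb' _ _ _).2 h1⟩
    · intro b v F v' F' u h h' hm
      rw [inb'] at h h'
      obtain ⟨r, h1, h2⟩ := k7 b v F v' F' u h h' hm
      refine ⟨r, fun z hz => ?_, h2⟩
      obtain ⟨u', q, h3, h4⟩ := hJ.2 K hKJ _ h2
      rw [opair_inj] at h3
      obtain ⟨rfl, rfl⟩ := h3
      unfold rj
      rw [mem_inter]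
      exact ⟨h1 z hz, h4 z hz⟩
    · intro b x h hbe hl
      rw [act']
      refine k8 b x ((et' _ _).1 h) hbe fun c hc => ?_
      obtain ⟨d, hd, hcd, h1⟩ := hl c hc
      exact ⟨d, hd, hcd, (act' _).1 h1⟩

end SW
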