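import Pool.Agent.H93.CT.Stmts

/-!
Module SDR of project CT: distinct representatives of a countable family of infinite sets.
-/

set_option linter.unusedVariables false
set_option synthInstance.maxSize 100000

namespace SW

section
variable {M : Type} [SetStr M] [ZF M]

theorem sdr_img_congr {f g : M → M} (hf : Fn1 f) (hg : Fn1 g) {a : M}
    (h : ∀ x, E x a → f x = g x) : img a f = img a g := by
  refine ext fun y => ?_
  rw [mem_img' hf, mem_img' hg]
  constructor
  · rintro ⟨x, hx, rfl⟩
    exact ⟨x, hx, h x hx⟩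
  · rintro ⟨x, hx, rfl⟩
    exact ⟨x, hx, (h x hx).symm⟩

end

/-- SDR -/
theorem ct_sdr (hac : ACFStmt) : SDRStmt := by
  intro M _ _ D S hS hD hinf
  obtain ⟨r, r1, r2⟩ := hD
  obtain ⟨g, hg⟩ := hac M (sUn (img D S))
  -- the member of `D` with number `n`
  let dn : M → M := fun n => the (fun d : M => E d D ∧ E (opair d n) r)
  have hdn : Fn1 dn := by
    show Fn1 (fun n : M => the (fun d : M => E d D ∧ E (opair d n) r))
    infer_instance
  -- the least number of `d`
  let N : M → M := fun d => the (fun n : M => E n om ∧ E (opair d n) r ∧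
    ∀ m : M, E m n → ¬ E (opair d m) r)
  have hN : Fn1 N := by
    show Fn1 (fun d : M => the (fun n : M => E n om ∧ E (opair d n) r ∧
      ∀ m : M, E m n → ¬ E (opair d m) r))
    infer_instance
  have hNs : ∀ d, E d D → E (N d) om ∧ E (opair d (N d)) r := by
    intro d hd
    obtain ⟨n, hn, hdn'⟩ := r1 d hd
    obtain ⟨m, ⟨h1, h2⟩, h3⟩ := mem_min (C := fun n : M => E n om ∧ E (opair d n) r)
      inferInstance ⟨n, hn, hdn'⟩
    have h4 := the_spec (p := fun n : M => E n om ∧ E (opair d n) r ∧
      ∀ m : M, E m n → ¬ E (opair d m) r) ⟨m, ⟨h1, h2, fun k hk hk' =>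
        h3 k hk ⟨Trans_om m h1 k hk, hk'⟩⟩, ?_⟩
    · exact ⟨h4.1, h4.2.1⟩
    · rintro k ⟨k1, k2, k3⟩
      rcases (Ord_nat k1).tri (Ord_nat h1) with h | h | h
      · exact (h3 k h ⟨k1, k2⟩).elim
      · exact h
      · exact (k3 m h h2).elim
  have hdN : ∀ d, E d D → dn (N d) = d := by
    intro d hd
    refine the_eq (p := fun d' : M => E d' D ∧ E (opair d' (N d)) r) ⟨hd, (hNs d hd).2⟩ ?_
    rintro d' ⟨h1, h2⟩
    exact r2 d' d (N d) h1 hd (hNs d hd).1 h2 (hNs d hd).2
  -- the recursion
  let F : M → M → M := fun n h => app g (sep (S (dn n)) (fun x : M =>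
    ¬ E x (img n (fun m : M => app h m))))
  have hF : Fn2 F := by
    show Fn2 (fun n h : M => app g (sep (S (dn n)) (fun x : M =>
      ¬ E x (img n (fun m : M => app h m)))))
    infer_instance
  let V : M → M := fun a => mrec F a
  have hV : Fn1 V := mrec_df
  have hVeq : ∀ n, V n = app g (sep (S (dn n)) (fun x : M => ¬ E x (img n V))) := by
    intro n
    have h1 : V n = F n (gr n V) := mrec_eq hF n
    have h2 : img n (fun u : M => app (gr n V) u) = img n V :=
      sdr_img_congr inferInstance hV (fun x hx => app_gr hV hx)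
    rw [h1]
    show app g (sep (S (dn n)) (fun x : M =>
      ¬ E x (img n (fun m : M => app (gr n V) m)))) = _
    rw [h2]
  have key : ∀ d, E d D → E (V (N d)) (S d) ∧ ¬ E (V (N d)) (img (N d) V) := by
    intro d hd
    have h1 : V (N d) = app g (sep (S d) (fun x : M => ¬ E x (img (N d) V))) := by
      rw [hVeq (N d), hdN d hd]
    obtain ⟨x, hx, hx'⟩ := hinf d hd (img (N d) V) (finF.img V hV (finF.nat (hNs d hd).1))
    have h2 : E (V (N d)) (sep (S d) (fun x : M => ¬ E x (img (N d) V))) := by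
      rw [h1]
      refine hg _ (fun z hz => ?_) ⟨x, ?_⟩
      · rw [mem_sep' inferInstance] at hz
        rw [mem_sUn]
        exact ⟨S d, (mem_img' hS).2 ⟨d, hd, rfl⟩, hz.1⟩
      · rw [mem_sep' inferInstance]
        exact ⟨hx, hx'⟩
    rw [mem_sep' inferInstance] at h2
    exact h2
  have hVN : Fn1 (fun d : M => V (N d)) := by
    have : Fn1 N := hN
    infer_instance
  refine ⟨gr D (fun d : M => V (N d)), fun d hd => ?_, fun d d' hd hd' hne => ?_⟩
  · rw [app_gr hVN hd]
    exact (key d hd).1
  · rw [app_gr hVN hd, app_gr hVN hd']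
    intro h
    rcases (Ord_nat (hNs d hd).1).tri (Ord_nat (hNs d' hd').1) with h1 | h1 | h1
    · refine (key d' hd').2 ?_
      rw [← h, mem_img' hV]
      exact ⟨N d, h1, rfl⟩
    · refine hne (r2 d d' (N d) hd hd' (hNs d hd).1 (hNs d hd).2 ?_)
      rw [h1]
      exact (hNs d' hd').2
    · refine (key d hd).2 ?_
      rw [h, mem_img' hV]
      exact ⟨N d', h1, rfl⟩

end SW
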