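import Pool.Agent.H93.CT.Stmts

/-!
Module UNI of project CT: the union of an increasing sequence of conditions is a condition.
-/

set_option linter.unusedVariables false
set_option synthInstance.maxSize 100000

namespace SW

section
variable {M : Type} [SetStr M] [ZF M]

theorem uni_lv {p q b v : M} (h : Sub p q) (h1 : Lv p b v) : Lv q b v := by
  obtain ⟨t, g, h2, h3⟩ := h1
  exact ⟨t, g, h _ h2, h3⟩

theorem uni_inb {p q K b v F : M} (h : Sub p q) (h1 : InB p K b v F) : InB q K b v F := by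
  obtain ⟨x, h2, h3⟩ := h1
  exact ⟨x, h _ h2, h3⟩

theorem uni_act {p q K b : M} (h : Sub p q) (h1 : Act p K b) : Act q K b := by
  obtain ⟨v, F, h2⟩ := h1
  exact ⟨v, F, uni_inb h h2⟩

theorem uni_mono {f : M} (hf : ∀ n, E n om → Sub (app f n) (app f (suc n))) :
    ∀ n, E n om → ∀ m, E m n → Sub (app f m) (app f n) := by
  refine om_ind (C := fun n : M => ∀ m : M, E m n → Sub (app f m) (app f n)) inferInstance ?_ ?_
  · intro m hm
    exact absurd hm (not_mem_emp m)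
  · intro n hn ih m hm
    rw [mem_suc] at hm
    rcases hm with hm | rfl
    · exact (ih m hm).trans (hf n hn)
    · exact hf m hn

theorem uni_two {f : M} (hf : ∀ n, E n om → Sub (app f n) (app f (suc n))) {m n : M}
    (hm : E m om) (hn : E n om) :
    ∃ k, E k om ∧ Sub (app f m) (app f k) ∧ Sub (app f n) (app f k) := by
  rcases (Ord_nat hm).tri (Ord_nat hn) with h | h | h
  · exact ⟨n, hn, uni_mono hf n hn m h, Sub.refl _⟩
  · subst h
    exact ⟨m, hm, Sub.refl _, Sub.refl _⟩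
  · exact ⟨m, hm, Sub.refl _, uni_mono hf m hm n h⟩

end

/-- UNI -/
theorem ct_uni (hcf : CFXStmt) (hcb : CBTStmt) (hwf : WFStmt) : UNIStmt := by
  intro M _ _ w Z I f hb heI hf
  have cf := hcf M w Z I hb
  have cb := hcb M
  have wf := hwf M w hb.w1
  have mono : ∀ n, E n om → Sub (app f n) (app f (suc n)) := fun n hn => (hf n hn).2
  have two : ∀ {m n : M}, E m om → E n om →
      ∃ k, E k om ∧ Sub (app f m) (app f k) ∧ Sub (app f n) (app f k) := uni_two mono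
  -- the heights
  let H : M → M := fun n => the (fun a : M => Cnd w Z I a (app f n))
  have hH : Fn1 H := by
    show Fn1 (fun n : M => the (fun a : M => Cnd w Z I a (app f n)))
    infer_instance
  have hc : ∀ n, E n om → Cnd w Z I (H n) (app f n) := by
    intro n hn
    obtain ⟨a, ha⟩ := cf.mem.1 (hf n hn).1
    exact the_spec (p := fun a : M => Cnd w Z I a (app f n)) ⟨a, ha, fun c hc => cf.huniq hc ha⟩
  have hsw : Sub (img om H) w := by
    intro z hz
    rw [mem_img' hH] at hz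
    obtain ⟨n, hn, rfl⟩ := hz
    exact (cf.ht (hc n hn)).1
  obtain ⟨β, hβ, hβ'⟩ := wf.bdd hsw (cb.img H hH cb.om)
  have hOβ : Ord β := wf.ord hβ
  have hmem : ∀ {b : M}, E b (sUn (img om H)) ↔ ∃ n, E n om ∧ E b (H n) := by
    intro b
    rw [mem_sUn]
    constructor
    · rintro ⟨y, hy, h⟩
      rw [mem_img' hH] at hy
      obtain ⟨n, hn, rfl⟩ := hy
      exact ⟨n, hn, h⟩
    · rintro ⟨n, hn, h⟩
      exact ⟨_, (mem_img' hH).2 ⟨n, hn, rfl⟩, h⟩
  generalize hA : sUn (img om H) = A at hmem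
  have hOA : Ord A := by
    rw [← hA]
    exact Ord_sUn fun y hy => wf.ord (hsw y hy)
  have hAw : E A w := by
    have h1 : Sub A β := by
      intro z hz
      obtain ⟨n, hn, h⟩ := hmem.1 hz
      exact hOβ.trans (hβ' _ ((mem_img' hH).2 ⟨n, hn, rfl⟩)) h
    rcases (hOA.sub_iff hOβ).1 h1 with h | h
    · exact hb.w1.1.trans hβ h
    · rw [h]
      exact hβ
  have hHA : ∀ n, E n om → Sub (H n) A := fun n hn z hz => hmem.2 ⟨n, hn, hz⟩
  have hsub : ∀ n, E n om → Sub (app f n) (uq f) := fun n hn z hz => mem_uq.2 ⟨n, hn, hz⟩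
  -- membership in the union
  have et : ∀ {K b x : M}, Et (uq f) K b x → ∃ n, E n om ∧ Et (app f n) K b x :=
    fun h => mem_uq.1 h
  have lv : ∀ {b v : M}, Lv (uq f) b v → ∃ n, E n om ∧ Lv (app f n) b v := by
    rintro b v ⟨t, g, h1, h2⟩
    obtain ⟨n, hn, h3⟩ := et h1
    exact ⟨n, hn, t, g, h3, h2⟩
  have inb : ∀ {K b v F : M}, InB (uq f) K b v F → ∃ n, E n om ∧ InB (app f n) K b v F := by
    rintro K b v F ⟨x, h1, h2⟩
    obtain ⟨n, hn, h3⟩ := et h1
    exact ⟨n, hn, x, h3, h2⟩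
  have act : ∀ {K b : M}, Act (uq f) K b → ∃ n, E n om ∧ Act (app f n) K b := by
    rintro K b ⟨v, F, h1⟩
    obtain ⟨n, hn, h3⟩ := inb h1
    exact ⟨n, hn, v, F, h3⟩
  refine ⟨A, ⟨?_, ?_, ?_⟩, ?_⟩
  · -- shape
    refine ⟨Or.inl hAw, ?_, ?_, ?_, ?_, ?_, ?_⟩
    · unfold uq
      exact cb.iUn (fun n : M => app f n) inferInstance cb.om fun n hn => (hc n hn).1.2.1
    · intro z hz
      obtain ⟨n, hn, h⟩ := mem_uq.1 hz
      obtain ⟨K, b, x, h1, h2, h3, h4⟩ := (hc n hn).1.2.2.1 z h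
      exact ⟨K, b, x, h1, hHA n hn b h2, h3, h4⟩
    · intro K b x x' h h'
      obtain ⟨n, hn, h⟩ := et h
      obtain ⟨m, hm, h'⟩ := et h'
      obtain ⟨k, hk, h1, h2⟩ := two hn hm
      exact (hc k hk).1.2.2.2.1 K b x x' (h1 _ h) (h2 _ h')
    · rintro K b ⟨b', x', h⟩ hbA
      obtain ⟨n, hn, h⟩ := et h
      obtain ⟨m, hm, hbm⟩ := hmem.1 hbA
      obtain ⟨k, hk, h1, h2⟩ := two hn hm
      obtain ⟨x, hx⟩ := (hc k hk).1.2.2.2.2.1 K b ⟨b', x', h1 _ h⟩
        (cf.hmono (hc m hm) (hc k hk) h2 b hbm)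
      exact ⟨x, hsub k hk _ hx⟩
    · intro b hbA
      obtain ⟨m, hm, hbm⟩ := hmem.1 hbA
      obtain ⟨x, hx⟩ := (hc m hm).1.2.2.2.2.2.1 b hbm
      exact ⟨x, hsub m hm _ hx⟩
    · intro b x h
      obtain ⟨n, hn, h⟩ := et h
      exact (hc n hn).1.2.2.2.2.2.2 b x h
  · -- the tree
    refine ⟨?_, ?_, ?_, ?_⟩
    · intro b v h
      obtain ⟨n, hn, h⟩ := lv h
      exact (hc n hn).2.1.1 b v h
    · intro x h
      obtain ⟨n, hn, h⟩ := et h
      exact uni_lv (hsub n hn) ((hc n hn).2.1.2.1 x h)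
    · intro b v c h hcb'
      obtain ⟨n, hn, h⟩ := lv h
      exact uni_lv (hsub n hn) ((hc n hn).2.1.2.2.1 b v c h hcb')
    · intro c v b x F h hcb' hx h1 h2 h3
      obtain ⟨n, hn, h⟩ := lv h
      obtain ⟨m, hm, hx⟩ := et hx
      obtain ⟨k, hk, h4, h5⟩ := two hn hm
      obtain ⟨v', h6, h7⟩ := (hc k hk).2.1.2.2.2 c v b x F (uni_lv h4 h) hcb' (h5 _ hx) h1 h2 h3
      exact ⟨v', uni_lv (hsub k hk) h6, h7⟩
  · -- the columns
    intro K hK
    have kl : ∀ n, E n om → KLw K (app f n) := fun n hn => (hc n hn).2.2 K hK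
    refine ⟨?_, ?_, ?_, ?_, ?_, ?_, ?_, ?_⟩
    · intro b x h
      obtain ⟨n, hn, h⟩ := et h
      exact (kl n hn).1 b x h
    · intro x h
      obtain ⟨n, hn, h⟩ := et h
      exact (kl n hn).2.1 x h
    · intro b v F h
      obtain ⟨n, hn, h⟩ := inb h
      obtain ⟨h1, h2⟩ := (kl n hn).2.2.1 b v F h
      exact ⟨uni_lv (hsub n hn) h1, h2⟩
    · intro b v F F' h h'
      obtain ⟨n, hn, h⟩ := inb h
      obtain ⟨m, hm, h'⟩ := inb h'
      obtain ⟨k, hk, h1, h2⟩ := two hn hm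
      exact (kl k hk).2.2.2.1 b v F F' (uni_inb h1 h) (uni_inb h2 h')
    · intro c b v F e hcb' h h' he
      obtain ⟨n, hn, h⟩ := inb h
      obtain ⟨m, hm, h'⟩ := act h'
      obtain ⟨k, hk, h1, h2⟩ := two hn hm
      obtain ⟨v', F', h3, h4⟩ := (kl k hk).2.2.2.2.1 c b v F e hcb' (uni_inb h1 h)
        (uni_act h2 h') he
      exact ⟨v', F', uni_inb (hsub k hk) h3, h4⟩
    · intro c b v F hcb' h h'
      obtain ⟨n, hn, h⟩ := inb h
      obtain ⟨m, hm, h'⟩ := act h'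
      obtain ⟨k, hk, h1, h2⟩ := two hn hm
      obtain ⟨F', h3⟩ := (kl k hk).2.2.2.2.2.1 c b v F hcb' (uni_inb h1 h) (uni_act h2 h')
      exact ⟨F', uni_inb (hsub k hk) h3⟩
    · intro b v F v' F' u h h' hm'
      obtain ⟨n, hn, h⟩ := inb h
      obtain ⟨m, hm, h'⟩ := inb h'
      obtain ⟨k, hk, h1, h2⟩ := two hn hm
      obtain ⟨r, h3, h4⟩ := (kl k hk).2.2.2.2.2.2.1 b v F v' F' u (uni_inb h1 h)
        (uni_inb h2 h') hm'
      exact ⟨r, h3.trans (hsub k hk), h4⟩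
    · intro b x h hbe hl
      obtain ⟨n, hn, h⟩ := et h
      have hbn : E b (H n) := (cf.row (hc n hn) h).1
      have hcol : Col (app f n) K := ⟨b, x, h⟩
      refine uni_act (hsub n hn) ((kl n hn).2.2.2.2.2.2.2 b x h hbe fun c hcb' => ?_)
      obtain ⟨d, hd, hcd, ha⟩ := hl c hcb'
      obtain ⟨m, hm, ha⟩ := act ha
      obtain ⟨k, hk, h1, h2⟩ := two hn hm
      exact ⟨d, hd, hcd, cf.oldA (hc n hn) (hf k hk).1 h1 hcol
        ((cf.ht (hc n hn)).2.trans hbn hd) (uni_act h2 ha)⟩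
  · intro n hn
    refine ⟨hsub n hn, fun b hbn => ?_⟩
    rw [cf.huniq hbn (hc n hn)]
    exact hHA n hn

end SW
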