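import Pool.Agent.H93.CT.Stmts

/-!
Module ZFX of project CT: facts about the set `Z` closed under countable subsets.
-/

set_option linter.unusedVariables false
set_option synthInstance.maxSize 100000

namespace SW

section
variable {M : Type} [SetStr M] [ZF M]

theorem zfx_sing (a : M) : Fnt (sing a) := by
  have : sing a = ins a emp := ext fun z => by simp
  rw [this]
  exact finF.ins finF.emp

theorem zfx_upair (a b : M) : Fnt (upair a b) := by
  have : upair a b = ins b (ins a emp) := ext fun z => by simp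
  rw [this]
  exact finF.ins (finF.ins finF.emp)

end

/-- ZFX -/
theorem ct_zfx (hcb : CBTStmt) (hwf : WFStmt) : ZFXStmt := by
  intro M _ _ w Z hb
  have cb := hcb M
  have wf := hwf M w hb.w1
  have fnt : ∀ {a : M}, Fnt a → Sub a Z → E a Z := fun h hs => hb.sc _ hs (cb.fin h)
  have opZ : ∀ {a b : M}, E a Z → E b Z → E (opair a b) Z := by
    intro a b ha hb'
    have h1 : E (sing a) Z := fnt (zfx_sing a) fun z hz => by
      rw [mem_sing] at hz
      rw [hz]
      exact ha
    have h2 : E (upair a b) Z := fnt (zfx_upair a b) fun z hz => by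
      rw [mem_upair] at hz
      rcases hz with rfl | rfl
      · exact ha
      · exact hb'
    refine fnt (a := opair a b) (zfx_upair _ _) fun z hz => ?_
    have hz' : z = sing a ∨ z = upair a b := by simpa [opair] using hz
    rcases hz' with rfl | rfl
    · exact h1
    · exact h2
  have wZ : Sub w Z := by
    intro a
    refine mem_induction (C := fun a : M => E a w → E a Z) inferInstance ?_ a
    intro a ih ha
    exact hb.sc a (fun z hz => ih z hz (hb.w1.1.sub_of_mem ha z hz)) (hb.w1.2.2 a ha)
  have omZ : Sub om Z := fun n hn => wZ n (wf.om n hn)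
  have nd : ∀ {a v : M}, E a w → Nd a v → Cb v ∧ E v Z := by
    intro a v ha hv
    have h1 : Cb v := cb.sub (cb.prod (hb.w1.2.2 a ha) cb.om) fun z hz => by
      obtain ⟨x, n, hx, hn, rfl⟩ := hv.1 z hz
      exact mem_prod.2 ⟨hx, hn⟩
    refine ⟨h1, hb.sc v (fun z hz => ?_) h1⟩
    obtain ⟨x, n, hx, hn, rfl⟩ := hv.1 z hz
    exact opZ (wZ x (hb.w1.1.sub_of_mem ha x hx)) (omZ n hn)
  refine ⟨fnt, fnt finF.emp fun z hz => absurd hz (not_mem_emp z), opZ, ?_, wZ, omZ, nd, ?_, ?_⟩
  · intro a b h
    have h1 : E (upair a b) (opair a b) := by simp [opair]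
    have h2 : E (upair a b) Z := hb.tz _ h _ h1
    exact ⟨hb.tz _ h2 a (by simp), hb.tz _ h2 b (by simp)⟩
  · intro a t g ha ht hct hg
    refine opZ (hb.sc t (fun v hv => (nd ha (ht v hv)).2) hct) ?_
    exact hb.sc g (fun n hn => omZ n (hg n hn)) (cb.sub cb.om hg)
  · intro a x ha hx hx1 hx2
    refine hb.sc x (fun z hz => ?_) hx
    obtain ⟨v, F, rfl⟩ := hx1 z hz
    obtain ⟨h1, h2, h3⟩ := hx2 v F hz
    exact opZ (nd ha h1).2 (fnt h2 fun n hn => omZ n (h3 n hn))

end SW
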